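import Pool.Agent.W558.Tower
import Pool.Agent.W558.Var

/-!
MP_19ffc6_ag: resolution of the hypersurfaces defined by the last member of a tower of polynomials,
each of which is a sum of monomials in the coordinates and the previous members, such that the
degrees of these monomials are independent modulo `p`.
-/

set_option autoImplicit false

open AlgebraicGeometry CategoryTheory MvPolynomial Pool.Agent.W558

universe u

namespace Pool.Agent.Results.MP_19ffc6_ag.FewnomialTowers

/-- The hypersurface `f = 0` in the affine space over `k`. -/
noncomputable def hyp {k : Type u} [Field k] {n : ℕ} (f : MvPolynomial (Fin n) k) : Scheme.{u} :=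
  Spec (CommRingCat.of (MvPolynomial (Fin n) k ⧸ Ideal.span {f}))

/-- The structure morphism of the hypersurface. -/
noncomputable def hypStr {k : Type u} [Field k] {n : ℕ} (f : MvPolynomial (Fin n) k) :
    hyp f ⟶ Spec (CommRingCat.of k) :=
  Spec.map (CommRingCat.ofHom (algebraMap k (MvPolynomial (Fin n) k ⧸ Ideal.span {f})))

/-- The degree modulo `p` of the monomial `∏ s, X s ^ a s * ∏ l, f l ^ e l`, where the polynomial
`f l` has the degree `deg l`. -/
def degree {p n r : ℕ} (deg : Fin (r + 1) → Fin n → ZMod p) (a : Fin n → ℕ)
    (e : Fin (r + 1) → ℕ) : Fin n → ZMod p :=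
  fun s => a s + ∑ l, e l * deg l s

/-- Let `k` be a field of characteristic `p` and `f 0, ..., f r` polynomials in `n` variables over
`k` such that each `f j` is a sum of monomials `c * ∏ X s ^ a s * ∏ f l ^ e l` in the variables and
the previous polynomials `f l`, `l < j`, with nonzero coefficients `c`. Give the polynomial `f j`
the degree of its first monomial, and suppose that the differences of the degrees of the other
monomials of `f j` and the degree of `f j`, for all `j` together, are linearly independent modulo
`p`. If `f r` is a prime polynomial which does not divide the variables and the previous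
polynomials, then the hypersurface `f r = 0` is a variety which has a resolution of
singularities. -/
theorem result (p : ℕ) [Fact p.Prime] (k : Type u) [Field k] [CharP k p] (n r : ℕ)
    (ι : Fin (r + 1) → Type) [∀ j, Fintype (ι j)] (i₀ : ∀ j, ι j) (c : ∀ j, ι j → k)
    (hc : ∀ j i, c j i ≠ 0) (a : ∀ j, ι j → Fin n → ℕ) (e : ∀ j, ι j → Fin (r + 1) → ℕ)
    (he : ∀ j i l, j ≤ l → e j i l = 0) (f : Fin (r + 1) → MvPolynomial (Fin n) k)
    (hf : ∀ j, f j = ∑ i, C (c j i) * ((∏ s, X s ^ a j i s) * ∏ l, f l ^ e j i l))
    (deg : Fin (r + 1) → Fin n → ZMod p)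
    (hdeg : ∀ j, deg j = degree deg (a j (i₀ j)) (e j (i₀ j)))
    (hind : LinearIndependent (ZMod p)
      fun q : (j : Fin (r + 1)) × {i : ι j // i ≠ i₀ j} =>
        degree deg (a q.1 q.2) (e q.1 q.2) - deg q.1)
    (hprime : Prime (f (Fin.last r)))
    (hndvd : ¬ f (Fin.last r) ∣ (∏ s, X s) * ∏ l : Fin r, f l.castSucc) :
    IsResolvableVariety (hypStr (f (Fin.last r))) := by
  let S : TowerData k p n r :=
    { ι := ι, fin := inferInstance, i0 := i₀, c := c, a := a, e := e, f := f, deg := deg }
  have hS : S.Ok :=
    { c0 := hc, e0 := he, hf := hf, hdeg := fun j s => congrFun (hdeg j) s, ind := hind,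
      prime := hprime, ndvd := hndvd }
  obtain ⟨h1, h2⟩ := TowerData.hasResolution_tower hS
  exact isResolvableVariety_spec h2

end Pool.Agent.Results.MP_19ffc6_ag.FewnomialTowers
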