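import Pool.Agent.W558.T3.Base

/-!
MP_19ffc6_ag: resolution of affine varieties with a torus action of complexity three, in particular
of affine fourfolds with a nontrivial action of the multiplicative group.
-/

set_option autoImplicit false

universe u

open AlgebraicGeometry CategoryTheory

namespace Pool.Agent.W558.Old.TorusComplexityThree

open Pool.Agent.W558

/-- Let `k` be a field and let `A` be a finitely generated `k`-algebra which is a domain and graded
by `ℤ^r`, so that `X = Spec A` is an affine variety with an action of a torus. Suppose that the
action has complexity three, that is, that the field `E` of homogeneous fractions of degree zero
has transcendence degree three over `k`, and that threefolds with function field `E` have log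
resolutions: for each finite family of nonzero elements of `E` there is a smooth projective
threefold with function field `E` and a divisor with simple normal crossings on it which contains
their zeros and poles. (If `k` is perfect this is a theorem of Cossart and Piltant, and of Cossart,
Jannsen and Saito.) Then `X` has a resolution of singularities. -/
theorem result {k A : Type u} [Field k] [CommRing A] [IsDomain A] [Algebra k A]
    [Algebra.FiniteType k A] {r : ℕ} (𝒜 : (Fin r → ℤ) → Submodule k A) [GradedAlgebra 𝒜]
    (h3 : Algebra.trdeg k (homFrac 𝒜) = 3) (hL : HasLogModels k (homFrac 𝒜)) :
    IsResolvableVariety (X := Spec (CommRingCat.of A))
      (Spec.map (CommRingCat.ofHom (algebraMap k A))) :=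
  isResolvableVariety_spec (final_log k A r 𝒜 hL)

end Pool.Agent.W558.Old.TorusComplexityThree
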