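import Pool.Agent.W558.T3.LU

/-!
MP_3029eb_ag: local uniformization of the local rings of affine varieties with a torus action of
complexity three, in particular of affine fourfolds with an action of the multiplicative group.
-/

set_option autoImplicit false

namespace Pool.Agent.W558.Old.TorusThreeUniformization

open Pool.Agent.W558 Pool.Agent.W418.LU

/-- Let `k` be a field and let `A` be a finitely generated `k`-algebra which is a domain and
graded by `ℤ^r`, such that the field `E` of homogeneous fractions of degree zero of `A` has
transcendence degree three over `k`, and that threefolds with function field `E` have log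
resolutions: for each finite family of nonzero elements of `E` there is a smooth projective
threefold with function field `E` and a divisor with simple normal crossings on it which contains
their zeros and poles. (If `k` is perfect this is a theorem of Cossart and Piltant, and of Cossart,
Jannsen and Saito.) Then the local ring `R` of `A` at any prime ideal `q`, homogeneous or not,
admits local uniformization: for every valuation ring `V` of the fraction field `K` of `R` centred
on `R` there is a finitely generated `R`-algebra in `V` whose localization at the centre of `V` is
regular. -/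
theorem result {k A : Type} [Field k] [CommRing A] [IsDomain A] [Algebra k A]
    [Algebra.FiniteType k A] {r : ℕ} (𝒜 : (Fin r → ℤ) → Submodule k A) [GradedAlgebra 𝒜]
    (h3 : Algebra.trdeg k (homFrac 𝒜) = 3) (hL : HasLogModels k (homFrac 𝒜))
    (q : Ideal A) [q.IsPrime] (R : Type) [CommRing R] [Algebra A R] [IsLocalization.AtPrime R q]
    (K : Type) [Field K] [Algebra R K] [IsFractionRing R K] (V : ValuationSubring K)
    (hV1 : ∀ r : R, algebraMap R K r ∈ V)
    (hV2 : ∀ r : R, r ∈ nonunits R ↔ V.valuation (algebraMap R K r) < 1) :
    ∃ B : Subalgebra R K, B.FG ∧ (∀ b : B, (b : K) ∈ V) ∧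
      ∃ P : Ideal B, ∃ (_ : P.IsPrime),
        (∀ b : B, b ∈ P ↔ V.valuation (b : K) < 1) ∧
        IsRegularLocalRing (Localization.AtPrime P) := by
  have hR : IsLocalRing R := IsLocalization.AtPrime.isLocalRing R q
  obtain ⟨T, I, _, _, ⟨M⟩⟩ := exists_LM_graded k A r 𝒜 hL
  obtain ⟨B, h1, h2, P, hP, h3, h4, h5⟩ := uniformized_of_LM M q (R := R) (K := K) V hV1
    (fun r => (IsLocalRing.mem_maximalIdeal r).trans (hV2 r))
  exact ⟨B, h1, h2, P, hP, h3, (IsRegularLocalRing.iff_finrank_cotangentSpace _).2 h5.symm⟩

end Pool.Agent.W558.Old.TorusThreeUniformization
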